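import Mathlib
import Pool.Agent.L0h44.LC.Stm

set_option autoImplicit false
set_option linter.unusedSectionVars false
set_option linter.unusedVariables false

/-!
# Project LC: the ridges around a triangle (module RDG)

If the facets placed so far are connected around the triangle `A` by glued tetrahedra and both facets containing the
tetrahedron `R` are among them, then every tetrahedron containing `A` is glued or is `R`.
-/

namespace Pool.Agent.L0h19.LC

open Finset Pool.Agent.H933R3 Pool.Agent.L0h44.LC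

variable {V : Type} [DecidableEq V]

theorem exists_facet' {K : Finset (Finset V)} {σ : Finset V} (h : σ ∈ K) : ∃ F, IsFacet K F ∧ σ ⊆ F := by
  obtain ⟨m, hm, hmax⟩ := K.exists_le_maximal h
  refine ⟨m, ⟨hmax.prop, fun G hG hle => ?_⟩, hm⟩
  exact (Subset.antisymm hle (hmax.2 hG hle)).symm

/-- the two faces of codimension one of `X` that contain the face `A` of codimension two -/
theorem two_ridges' {A X : Finset V} {c : ℕ} (hA : A.card = c) (hX : X.card = c + 2) (h : A ⊆ X) :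
    ∃ ρ₁ ρ₂ : Finset V, ρ₁ ≠ ρ₂ ∧ ∀ ρ : Finset V, (ρ.card = c + 1 ∧ A ⊆ ρ ∧ ρ ⊆ X) ↔
      (ρ = ρ₁ ∨ ρ = ρ₂) := by
  have h1 : (X \ A).card = 2 := by rw [card_sdiff_of_subset h]; omega
  obtain ⟨x, y, hxy, hXA⟩ := card_eq_two.1 h1
  have hx : x ∈ X \ A := by rw [hXA]; simp
  have hy : y ∈ X \ A := by rw [hXA]; simp
  rw [mem_sdiff] at hx hy
  refine ⟨insert x A, insert y A, ?_, ?_⟩
  · intro he
    have : x ∈ insert y A := he ▸ mem_insert_self x A
    rcases mem_insert.1 this with h | h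
    · exact hxy h
    · exact hx.2 h
  · intro ρ
    constructor
    · rintro ⟨h2, h3, h4⟩
      have h5 : (ρ \ A).card = 1 := by rw [card_sdiff_of_subset h3]; omega
      obtain ⟨z, hz⟩ := card_eq_one.1 h5
      have hz1 : z ∈ ρ \ A := by rw [hz]; simp
      have hz2 : z ∈ X \ A := sdiff_subset_sdiff h4 (Subset.refl _) hz1
      have h6 : ρ = insert z A := by
        rw [← sdiff_union_of_subset h3, hz]
        rfl
      rw [hXA, mem_insert, mem_singleton] at hz2
      rcases hz2 with rfl | rfl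
      · exact Or.inl h6
      · exact Or.inr h6
    · rintro (rfl | rfl)
      · exact ⟨by rw [card_insert_of_notMem hx.2, hA], subset_insert _ _,
          insert_subset hx.1 h⟩
      · exact ⟨by rw [card_insert_of_notMem hy.2, hA], subset_insert _ _,
          insert_subset hy.1 h⟩

open Classical in
/-- a connected set of facets has at most one element more than it has glued ridges -/
theorem card_le_edges {K 𝓕 G : Finset (Finset V)} {A F : Finset V} (h2 : AtMostTwo 4 K)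
    (hFK : ∀ X ∈ 𝓕, IsFacet K X) (hG : ∀ S ∈ G, S.card = 4) (hF : F ∈ 𝓕) (hAF : A ⊆ F)
    (S E : Finset (Finset V)) (hS : ∀ X, X ∈ S ↔ X ∈ 𝓕 ∧ SameFace 𝓕 G A F X)
    (hE : ∀ ρ, ρ ∈ E ↔ ρ ∈ G ∧ A ⊆ ρ ∧ ∃ X ∈ S, ρ ⊆ X) : S.card ≤ E.card + 1 := by
  let Gr : SimpleGraph {X // X ∈ S} :=
    { Adj := fun X Y => X ≠ Y ∧ ∃ ρ ∈ E, ρ ⊆ X.1 ∧ ρ ⊆ Y.1
      symm := ⟨by
        rintro X Y ⟨h1, ρ, h3, h4, h5⟩
        exact ⟨h1.symm, ρ, h3, h5, h4⟩⟩
      loopless := ⟨by
        rintro X ⟨h1, -⟩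
        exact h1 rfl⟩ }
  have hFS : F ∈ S := (hS F).2 ⟨hF, Relation.ReflTransGen.refl⟩
  have hreach : ∀ X, SameFace 𝓕 G A F X → ∃ hX : X ∈ S, Gr.Reachable ⟨F, hFS⟩ ⟨X, hX⟩ := by
    intro X hX
    induction hX with
    | refl => exact ⟨hFS, SimpleGraph.Reachable.refl _⟩
    | tail hab hbc ih =>
      rename_i b c
      obtain ⟨hb, hr⟩ := ih
      obtain ⟨hb', hc', ρ, hρ, hAρ, h3, h4⟩ := hbc
      have hc : c ∈ S := (hS c).2 ⟨hc', hab.tail ⟨hb', hc', ρ, hρ, hAρ, h3, h4⟩⟩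
      refine ⟨hc, ?_⟩
      by_cases hbc : b = c
      · subst hbc
        exact hr
      · refine hr.trans (SimpleGraph.Adj.reachable ?_)
        exact ⟨fun e => hbc (congrArg Subtype.val e), ρ, (hE ρ).2 ⟨hρ, hAρ, b, hb, h3⟩, h3, h4⟩
  have hconn : Gr.Connected := by
    rw [SimpleGraph.connected_iff]
    refine ⟨fun X Y => ?_, ⟨⟨F, hFS⟩⟩⟩
    obtain ⟨hX0, hX⟩ := hreach X.1 ((hS X.1).1 X.2).2
    obtain ⟨hY0, hY⟩ := hreach Y.1 ((hS Y.1).1 Y.2).2
    exact hX.symm.trans hY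
  have h3 := hconn.card_vert_le_card_edgeSet_add_one
  rw [Nat.card_eq_fintype_card, Fintype.card_coe] at h3
  have h4 : Nat.card Gr.edgeSet ≤ E.card := by
    have h5 : ∀ e : Gr.edgeSet, ∃ ρ ∈ E, ∀ X ∈ e.1, ρ ⊆ X.1 := by
      rintro ⟨e, he⟩
      induction e using Sym2.ind with
      | _ X Y =>
        rw [SimpleGraph.mem_edgeSet] at he
        obtain ⟨-, ρ, hρ, h6, h7⟩ := he
        refine ⟨ρ, hρ, fun Z hZ => ?_⟩
        rcases Sym2.mem_iff.1 hZ with rfl | rfl
        · exact h6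
        · exact h7
    choose c hc1 hc2 using h5
    have hinj : Function.Injective (fun e : Gr.edgeSet => (⟨c e, hc1 e⟩ : {ρ // ρ ∈ E})) := by
      rintro ⟨e, he⟩ ⟨e', he'⟩ hee
      have hcc : c ⟨e, he⟩ = c ⟨e', he'⟩ := congrArg Subtype.val hee
      have h6 := hc2 ⟨e, he⟩
      have h7 := hc2 ⟨e', he'⟩
      rw [← hcc] at h7
      have hcard : (c ⟨e, he⟩).card = 4 := hG _ ((hE _).1 (hc1 ⟨e, he⟩)).1
      revert h6 h7 hcard
      generalize c ⟨e, he⟩ = ρ
      intro h6 h7 hcard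
      apply Subtype.ext
      show e = e'
      clear hee hcc
      induction e using Sym2.ind with
      | _ X Y =>
        induction e' using Sym2.ind with
        | _ X' Y' =>
          rw [SimpleGraph.mem_edgeSet] at he he'
          have hXY : X.1 ≠ Y.1 := fun e => he.1 (Subtype.ext e)
          have hXY' : X'.1 ≠ Y'.1 := fun e => he'.1 (Subtype.ext e)
          have hX := h6 X (by simp)
          have hY := h6 Y (by simp)
          have hX' := h7 X' (by simp)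
          have hY' := h7 Y' (by simp)
          have hf : ∀ Z : {X // X ∈ S}, IsFacet K Z.1 := fun Z => hFK _ ((hS Z.1).1 Z.2).1
          have a1 : X.1 = X'.1 ∨ Y.1 = X'.1 := by
            rcases h2 ρ hcard X Y X' (hf _) (hf _) (hf _) hX hY hX' with e | e | e
            · exact absurd e hXY
            · exact Or.inl e
            · exact Or.inr e
          have a2 : X.1 = Y'.1 ∨ Y.1 = Y'.1 := by
            rcases h2 ρ hcard X Y Y' (hf _) (hf _) (hf _) hX hY hY' with e | e | e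
            · exact absurd e hXY
            · exact Or.inl e
            · exact Or.inr e
          rw [Sym2.eq_iff]
          rcases a1 with a1 | a1 <;> rcases a2 with a2 | a2
          · exact absurd (a1.symm.trans a2) hXY'
          · exact Or.inl ⟨Subtype.ext a1, Subtype.ext a2⟩
          · exact Or.inr ⟨Subtype.ext a2, Subtype.ext a1⟩
          · exact absurd (a1.symm.trans a2) hXY'
    have h8 := Nat.card_le_card_of_injective _ hinj
    rwa [Nat.card_eq_fintype_card (α := {ρ // ρ ∈ E}), Fintype.card_coe] at h8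
  omega

open Classical in
/-- Module RDG -/
theorem t_RDG : S_RDG := by
  intro V _ K 𝓕 G A R F F' hK h5 h2 hconn hFK hG hA hAR hR hRG hF hF' hne hRF hRF' hs
  let S := 𝓕.filter (fun X => SameFace 𝓕 G A F X)
  have hS : ∀ X, X ∈ S ↔ X ∈ 𝓕 ∧ SameFace 𝓕 G A F X := fun X => mem_filter
  let E := G.filter (fun ρ => A ⊆ ρ ∧ ∃ X ∈ S, ρ ⊆ X)
  have hE : ∀ ρ, ρ ∈ E ↔ ρ ∈ G ∧ A ⊆ ρ ∧ ∃ X ∈ S, ρ ⊆ X := fun ρ => mem_filter
  have hcardS : S.card ≤ E.card + 1 :=
    card_le_edges h2 hFK (fun S hS => (hG S hS).1) hF (hAR.trans hRF) S E hS hE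
  have hFS : F ∈ S := (hS F).2 ⟨hF, Relation.ReflTransGen.refl⟩
  have hFS' : F' ∈ S := (hS F').2 ⟨hF', hs⟩
  -- all elements of `S` contain `A`
  have hSA : ∀ X, SameFace 𝓕 G A F X → A ⊆ X := by
    intro X hX
    induction hX with
    | refl => exact hAR.trans hRF
    | tail _ hbc _ =>
      obtain ⟨-, -, ρ, -, h3, -, h4⟩ := hbc
      exact h3.trans h4
  let Q := K.filter (fun ρ => ρ.card = 4 ∧ A ⊆ ρ)
  have hcount : ∑ X ∈ S, (Q.filter (fun ρ => ρ ⊆ X)).card =
      ∑ ρ ∈ Q, (S.filter (fun X => ρ ⊆ X)).card := by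
    simp only [card_filter]
    exact sum_comm
  have hleft : ∑ X ∈ S, (Q.filter (fun ρ => ρ ⊆ X)).card = 2 * S.card := by
    rw [sum_const_nat (m := 2), mul_comm]
    intro X hX
    have hX' := (hS X).1 hX
    have hXf := hFK X hX'.1
    obtain ⟨ρ₁, ρ₂, hne', h3⟩ := two_ridges' hA (h5 X hXf) (hSA X hX'.2)
    have : Q.filter (fun ρ => ρ ⊆ X) = {ρ₁, ρ₂} := by
      ext ρ
      rw [mem_filter, mem_filter, mem_insert, mem_singleton, ← h3 ρ]
      constructor
      · rintro ⟨⟨-, h4, h5⟩, h6⟩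
        exact ⟨h4, h5, h6⟩
      · rintro ⟨h4, h5, h6⟩
        exact ⟨⟨hK.2 _ hXf.1 _ h6, h4, h5⟩, h6⟩
    rw [this, card_pair hne']
  have hEtwo : ∀ ρ ∈ E, 2 ≤ (S.filter (fun X => ρ ⊆ X)).card := by
    intro ρ hρ
    obtain ⟨h3, h4, X, hX, h6⟩ := (hE ρ).1 hρ
    obtain ⟨-, X1, hX1, Y1, hY1, h7, h8, h9⟩ := hG ρ h3
    have hX' := (hS X).1 hX
    have hX1S : X1 ∈ S := (hS X1).2 ⟨hX1, hX'.2.tail ⟨hX'.1, hX1, ρ, h3, h4, h6, h8⟩⟩
    have hY1S : Y1 ∈ S := (hS Y1).2 ⟨hY1, hX'.2.tail ⟨hX'.1, hY1, ρ, h3, h4, h6, h9⟩⟩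
    rw [← card_pair h7]
    apply card_le_card
    intro Z hZ
    rw [mem_insert, mem_singleton] at hZ
    rcases hZ with rfl | rfl
    · exact mem_filter.2 ⟨hX1S, h8⟩
    · exact mem_filter.2 ⟨hY1S, h9⟩
  have hRtwo : 2 ≤ (S.filter (fun X => R ⊆ X)).card := by
    rw [← card_pair hne]
    apply card_le_card
    intro Z hZ
    rw [mem_insert, mem_singleton] at hZ
    rcases hZ with rfl | rfl
    · exact mem_filter.2 ⟨hFS, hRF⟩
    · exact mem_filter.2 ⟨hFS', hRF'⟩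
  have hEQ : E ⊆ Q := by
    intro ρ hρ
    obtain ⟨h3, h4, X, hX, h6⟩ := (hE ρ).1 hρ
    exact mem_filter.2 ⟨hK.2 _ (hFK X ((hS X).1 hX).1).1 _ h6, (hG ρ h3).1, h4⟩
  have hRQ : R ∈ Q := mem_filter.2 ⟨hK.2 _ (hFK F hF).1 _ hRF, hR, hAR⟩
  have hRE : R ∉ E := fun h => hRG ((hE R).1 h).1
  -- there are no other tetrahedra containing `A` in the facets of `S`
  have key : ∀ ρ ∈ Q, ∀ X ∈ S, ρ ⊆ X → ρ = R ∨ ρ ∈ G := by
    intro ρ hρ X hX hρX
    by_contra hcon
    push Not at hcon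
    have hρE : ρ ∉ E := fun h => hcon.2 ((hE ρ).1 h).1
    have hsub : insert ρ (insert R E) ⊆ Q := by
      intro Z hZ
      rw [mem_insert, mem_insert] at hZ
      rcases hZ with rfl | rfl | hZ
      · exact hρ
      · exact hRQ
      · exact hEQ hZ
    have h10 : ∑ ρ ∈ insert ρ (insert R E), (S.filter (fun X => ρ ⊆ X)).card ≤
        ∑ ρ ∈ Q, (S.filter (fun X => ρ ⊆ X)).card := sum_le_sum_of_subset hsub
    rw [sum_insert (by
      rw [mem_insert]
      push Not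
      exact ⟨hcon.1, hρE⟩), sum_insert hRE] at h10
    have h11 : 1 ≤ (S.filter (fun X => ρ ⊆ X)).card := by
      rw [Nat.succ_le_iff, card_pos]
      exact ⟨X, mem_filter.2 ⟨hX, hρX⟩⟩
    have h12 : 2 * E.card ≤ ∑ ρ ∈ E, (S.filter (fun X => ρ ⊆ X)).card := by
      rw [mul_comm, ← smul_eq_mul, ← sum_const]
      exact sum_le_sum hEtwo
    omega
  -- all facets containing `A` are in `S`
  have hall : ∀ X, Relation.ReflTransGen
      (fun X Y => IsFacet K X ∧ IsFacet K Y ∧ ∃ S ∈ K, S.card = 4 ∧ A ⊆ S ∧ S ⊆ X ∧ S ⊆ Y) F X → X ∈ S := by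
    intro X hX
    induction hX with
    | refl => exact hFS
    | tail hab hbc ih =>
      rename_i b c
      obtain ⟨hb, hc, ρ, hρ, h3, h4, h6, h7⟩ := hbc
      have hb' := (hS b).1 ih
      rcases key ρ (mem_filter.2 ⟨hρ, h3, h4⟩) b ih h6 with e | e
      · subst e
        rcases h2 ρ h3 F F' c (hFK F hF) (hFK F' hF') hc hRF hRF' h7 with e | e | e
        · exact absurd e hne
        · exact e ▸ hFS
        · exact e ▸ hFS'
      · obtain ⟨-, X1, hX1, Y1, hY1, h8, h9, h10⟩ := hG ρ e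
        have hcF : c ∈ 𝓕 := by
          rcases h2 ρ h3 X1 Y1 c (hFK X1 hX1) (hFK Y1 hY1) hc h9 h10 h7 with e | e | e
          · exact absurd e h8
          · exact e ▸ hX1
          · exact e ▸ hY1
        exact (hS c).2 ⟨hcF, hb'.2.tail ⟨hb'.1, hcF, ρ, e, h4, h6, h7⟩⟩
  intro T hT hT4 hAT
  obtain ⟨X, hX, hTX⟩ := exists_facet' hT
  have hXS := hall X (hconn F X (hFK F hF) hX (hAR.trans hRF) (hAT.trans hTX))
  exact key T (mem_filter.2 ⟨hT, hT4, hAT⟩) X hXS hTX

end Pool.Agent.L0h19.LC
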